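import Mathlib
import Pool.Agent.Lib.helper23.Rec

set_option autoImplicit false

namespace Pool.Agent.Results.MP_4cb3df_gt.Main

open Set Topology
open Cardinal hiding univ

universe u

abbrev box (I V : Type u) : TopologicalSpace (I → V) :=
  .generateFrom {W | ∃ (x : I → V) (D : Set I), #D < #V ∧ W = {y | EqOn y x D}}

def MNorm (X : Type u) (_ : TopologicalSpace X) : Prop := ∀ F : ℕ → Set X, (∀ n, IsClosed (F n)) →
  (∀ x, ∃ W ∈ 𝓝 x, {n | (W ∩ F n).Nonempty}.Subsingleton) →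
    ∃ U : ℕ → Set X, (∀ n, IsOpen (U n) ∧ F n ⊆ U n) ∧ ∀ x, {n | x ∈ U n}.Finite

variable {I V : Type u}

lemma base [Infinite V] {W : Set (I → V)} (h : IsOpen[box I V] W) :
    ∀ x ∈ W, ∃ D : Set I, #D < #V ∧ ∀ y, EqOn y x D → y ∈ W := by
  induction h with
  | basic s hs =>
    obtain ⟨z, D, h1, rfl⟩ := hs
    exact fun x hx => ⟨D, h1, fun y hy => hy.trans hx⟩
  | univ => exact fun x _ => ⟨∅, by simpa using aleph0_pos.trans_le (aleph0_le_mk V), fun _ _ => trivial⟩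
  | inter s r _ _ i1 i2 =>
    intro x hx
    obtain ⟨D, h1, h2⟩ := i1 x hx.1
    obtain ⟨C, h3, h4⟩ := i2 x hx.2
    exact ⟨D ∪ C, (mk_union_le _ _).trans_lt (add_lt_of_lt (aleph0_le_mk V) h1 h3), fun y hy =>
      ⟨h2 y (hy.mono subset_union_left), h4 y (hy.mono subset_union_right)⟩⟩
  | sUnion S _ ih =>
    rintro x ⟨s, hs, hx⟩
    exact (ih s hs x hx).imp fun D h => ⟨h.1, fun y hy => ⟨s, hs, h.2 y hy⟩⟩

def E (p q : Set I × (I → V)) : Prop := p.1 ⊆ q.1 ∧ EqOn q.2 p.2 p.1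

lemma chain {P : Set I × (I → V) → Prop} {Q : ℕ → Set I × (I → V) → Prop} {a : Set I × (I → V)}
    (h : P a) (step : ∀ k p, P p → ∃ q, P q ∧ E p q ∧ Q k q) :
    ∃ (p : ℕ → Set I × (I → V)) (z : I → V), ∀ k, P (p k) ∧ Q k (p k) ∧ EqOn z (p k).2 (p k).1 := by
  classical
  choose! f h1 h2 h3 using step
  let p : ℕ → Set I × (I → V) := Nat.rec a f
  have h4 (k) : P (p k) := k.rec h fun k => h1 k _
  have h5 {k m : ℕ} (h : k ≤ m) : E (p k) (p m) := h.rec ⟨subset_rfl, fun _ _ => rfl⟩ fun {m} _ ih =>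
    ⟨ih.1.trans (h2 m _ (h4 m)).1, ((h2 m _ (h4 m)).2.mono ih.1).trans ih.2⟩
  refine ⟨fun k => p (k + 1), fun i => if h : ∃ k, i ∈ (p k).1 then (p (Nat.find h)).2 i else a.2 i,
    fun k => ⟨h4 (k + 1), h3 k _ (h4 k), fun i hi => ?_⟩⟩
  have h6 : ∃ k, i ∈ (p k).1 := ⟨k + 1, hi⟩
  exact (dif_pos h6).trans ((h5 (Nat.find_min' h6 (m := k + 1) hi)).2 (Nat.find_spec h6)).symm

theorem result (I V : Type u) [Infinite V] (hI : #I = Order.succ #V) : ¬ MNorm _ (box I V) := by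
  classical
  intro h
  let := box I V
  have k0 := aleph0_le_mk V
  let c := Infinite.natEmbedding V
  have k1 (x : I → V) (i j : I) : {y | EqOn y x {i, j}} ∈ 𝓝 x := IsOpen.mem_nhds (.basic _
    ⟨x, _, (toFinite _).lt_aleph0.trans_le k0, rfl⟩) fun _ _ => rfl
  obtain ⟨U, u1, u2⟩ := h (fun n => {x | ∀ i j, x i = x j → x i ≠ c n → i = j})
    (fun n => isOpen_compl_iff.1 (isOpen_iff_mem_nhds.2 fun x hx => by
      simp only [mem_compl_iff, mem_ofPred_eq, not_forall] at hx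
      obtain ⟨i, j, h1, h2, h3⟩ := hx
      refine Filter.mem_of_superset (k1 x i j) fun y hy h4 => h3 (h4 i j ?_ ?_)
      · rw [hy (Or.inl rfl), hy (Or.inr rfl), h1]
      · rwa [hy (Or.inl rfl)]))
    fun x => by
      obtain ⟨i, j, h1, h2⟩ := Function.not_injective_iff.1 fun h : x.Injective =>
        (mk_le_of_injective h).not_gt (hI ▸ Order.lt_succ _)
      have h3 (n) (h : ({y | EqOn y x {i, j}} ∩
          {x | ∀ i j, x i = x j → x i ≠ c n → i = j}).Nonempty) : x i = c n := by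
        obtain ⟨y, hy, h4⟩ := h
        refine by_contra fun h5 => h2 (h4 i j ?_ ?_)
        · rw [hy (Or.inl rfl), hy (Or.inr rfl), h1]
        · rwa [hy (Or.inl rfl)]
      exact ⟨_, k1 x i j, fun a ha b hb => c.injective ((h3 a ha).symm.trans (h3 b hb))⟩
  let N (p : Set I × (I → V)) := {n | ∃ z ∈ U n, EqOn z p.2 p.1}
  have k2 (a : Set I × (I → V)) (ha : #a.1 ≤ #V) : ∃ r, E a r ∧ #r.1 ≤ #V ∧ (N r).Finite := by
    by_contra! k2
    obtain ⟨p, z, hp⟩ := chain (P := fun r => E a r ∧ #r.1 ≤ #V)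
      (Q := fun k r => ∃ m, k < m ∧ ∀ y, EqOn y r.2 r.1 → y ∈ U m) ⟨⟨subset_rfl, fun _ _ => rfl⟩, ha⟩
      fun k p hp => by
        obtain ⟨m, ⟨z, h1, h2⟩, h3⟩ := (k2 p hp.1 hp.2).exists_gt k
        obtain ⟨D, h4, h5⟩ := base (u1 m).1 z h1
        exact ⟨(p.1 ∪ D, z), ⟨⟨hp.1.1.trans subset_union_left, (h2.mono hp.1.1).trans hp.1.2⟩,
          (mk_union_le _ _).trans (add_le_of_le k0 hp.2 h4.le)⟩, ⟨subset_union_left, h2⟩,
          m, h3, fun y hy => h5 y (hy.mono subset_union_right)⟩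
    exact (infinite_of_forall_exists_gt fun k => (hp k).2.1.imp fun m h =>
      ⟨h.2 z (hp k).2.2, h.1⟩) (u2 z)
  let G (p : Set I × (I → V)) := #p.1 ≤ #V ∧ InjOn p.2 p.1 ∧ #V ≤ #((p.2 '' p.1)ᶜ : Set V)
  obtain ⟨n, a, a1, a2⟩ : ∃ n a, G a ∧ ∀ p, G p → E a p →
      ∃ r, E p r ∧ #r.1 ≤ #V ∧ n ∉ N r := by
    by_contra! k3
    obtain ⟨p, z, hp⟩ := chain (P := G) (Q := fun k q => ∀ r, E q r → #r.1 ≤ #V → k ∈ N r)
      (a := (∅, fun _ => c 0)) ⟨by simp, injOn_empty _, by simp⟩ k3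
    obtain ⟨r, h1, h2, h3⟩ := k2 (⋃ k, (p k).1, z) ((lift_uzero _).ge.trans
      ((mk_iUnion_le_lift _).trans (mul_le_of_le k0 (by simpa using k0)
        (ciSup_le' fun k => (lift_uzero _).trans_le (hp k).1.1))))
    refine infinite_univ (h3.subset fun k _ => (hp k).2.1 r ⟨(subset_iUnion (fun k => (p k).1) k).trans
      h1.1, (h1.2.mono (subset_iUnion (fun k => (p k).1) k)).trans (hp k).2.2⟩ h2)
  obtain ⟨e⟩ : Nonempty (V × V ↪ ((a.2 '' a.1)ᶜ : Set V)) := by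
    rw [← Cardinal.le_def, mk_prod, lift_id, mul_eq_self k0]
    exact a1.2.2
  have k3 (B : Set I) : ∃ g : I → V, #B ≤ #V → InjOn g B := by
    by_cases h : #B ≤ #V
    · obtain ⟨g⟩ := h
      exact ⟨Function.extend (↑) g fun _ => c 0, fun _ i hi j hj h => congrArg Subtype.val
        (g.injective (a₁ := ⟨i, hi⟩) (a₂ := ⟨j, hj⟩) (((Subtype.val_injective.extend_apply _ _
          ⟨i, hi⟩).symm.trans h).trans (Subtype.val_injective.extend_apply _ _ ⟨j, hj⟩)))⟩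
    · exact ⟨fun _ => c 0, fun h' => (h h').elim⟩
  choose g hg using k3
  obtain ⟨_, _⟩ := exists_wellFoundedLT (α := V)
  have k4 (B : V → Set I) (i : I) : ∃ μ, ∀ η, i ∈ B η → i ∈ B μ ∧ μ ≤ η := by
    by_cases h : ∃ η, i ∈ B η
    · exact (wellFounded_lt.has_min {η | i ∈ B η} h).imp fun μ h η k => ⟨h.1, le_of_not_gt (h.2 η k)⟩
    · exact ⟨c 0, fun η k => (h ⟨η, k⟩).elim⟩
  choose μ k4 using k4
  let P (B : V → Set I) : Set I × (I → V) := (a.1 ∪ ⋃ η, B η, fun i => if i ∈ a.1 then a.2 i else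
    if ∃ η, i ∈ B η then e (μ B i, g (B (μ B i)) i) else c n)
  have k5 (B : V → Set I) (hB : ∀ η, #(B η) ≤ #V) : InjOn (P B).2 (P B).1 := by
    intro i hi j hj h
    by_cases h1 : i ∈ a.1 <;> by_cases h2 : j ∈ a.1 <;> simp only [P, h1, h2, if_true, if_false] at h
    · exact a1.2.1 h1 h2 h
    · rw [if_pos (mem_iUnion.1 (hj.resolve_left h2))] at h
      exact ((e _).2 ⟨i, h1, h⟩).elim
    · rw [if_pos (mem_iUnion.1 (hi.resolve_left h1))] at h
      exact ((e _).2 ⟨j, h2, h.symm⟩).elim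
    obtain ⟨η, h3⟩ := mem_iUnion.1 (hi.resolve_left h1)
    obtain ⟨θ, h4⟩ := mem_iUnion.1 (hj.resolve_left h2)
    rw [if_pos ⟨η, h3⟩, if_pos ⟨θ, h4⟩] at h
    obtain ⟨h5, h6⟩ := Prod.ext_iff.1 (e.injective (Subtype.ext h))
    dsimp only at h5 h6
    rw [← h5] at h6
    exact hg _ (hB _) (k4 B i η h3).1 (h5 ▸ (k4 B j θ h4).1) h6
  have : Inhabited V := ⟨c 0⟩
  obtain ⟨f, hf⟩ := Pool.Agent.Lib.helper23.trans_rec (W := V) (S := Set I × (I → V))
    (fun ξ f r => E (P fun η => {i | η < ξ ∧ i ∈ (f η).1}) r ∧ #r.1 ≤ #V ∧ n ∉ N r)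
    (fun ξ f g r h h' => by
      rwa [← show (fun η => {i | η < ξ ∧ i ∈ (f η).1}) = fun η => {i | η < ξ ∧ i ∈ (g η).1} from
        funext fun η => Set.ext fun i => and_congr_right fun k => by rw [h η k]])
    fun ξ f h => by
      have h1 (η) : #{i | η < ξ ∧ i ∈ (f η).1} ≤ #V := by
        by_cases k : η < ξ
        · exact (mk_le_mk_of_subset fun i h => h.2).trans (h η k).2.1
        · simp [k]
      refine a2 _ ⟨(mk_union_le _ _).trans (add_le_of_le k0 a1.1 ((mk_iUnion_le _).trans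
        (mul_le_of_le k0 le_rfl (ciSup_le' h1)))), k5 _ h1, mk_le_of_injective
        (f := fun v => ⟨e (ξ, v), fun ⟨i, h2, h3⟩ => ?_⟩) fun v w h => ?_⟩
        ⟨subset_union_left, fun i h => if_pos h⟩
      · by_cases k : i ∈ a.1
        · exact (e _).2 ⟨i, k, (if_pos k).symm.trans h3⟩
        · obtain ⟨η, h4⟩ := mem_iUnion.1 (h2.resolve_left k)
          simp only [P, if_neg k] at h3
          rw [if_pos ⟨η, h4⟩] at h3
          exact (k4 (fun η => {i | η < ξ ∧ i ∈ (f η).1}) i η h4).1.1.ne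
            (congrArg Prod.fst (e.injective (Subtype.ext h3)))
      · exact congrArg Prod.snd (e.injective (Subtype.ext (congrArg Subtype.val h :)))
  let B (η) := (f η).1
  obtain ⟨D, d1, d2⟩ := base (u1 n).1 (P B).2 ((u1 n).2 fun i j h1 h2 => by
    have k (i) (h : (P B).2 i ≠ c n) : i ∈ (P B).1 := by_contra fun k =>
      h ((if_neg fun h => k (Or.inl h)).trans (if_neg fun h => k (Or.inr (mem_iUnion.2 h))))
    exact k5 B (fun η => (hf η).2.1) (k i h2) (k j (h1 ▸ h2)) h1)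
  obtain ⟨ξ, h1⟩ := (ne_univ_iff_exists_notMem (μ B '' D)).1 fun h =>
    (mk_image_le.trans_lt d1).ne (h ▸ mk_univ)
  refine (hf ξ).2.2 ⟨(B ξ).piecewise (f ξ).2 (P B).2, d2 _ fun i hi => ?_, piecewise_eqOn _ _ _⟩
  by_cases h2 : i ∈ B ξ
  · rw [piecewise_eq_of_mem _ _ _ h2]
    obtain ⟨h3, h4⟩ := k4 B i ξ h2
    have h5 : i ∈ {i | μ B i < ξ ∧ i ∈ (f (μ B i)).1} := ⟨h4.lt_of_ne fun e => h1 ⟨i, hi, e⟩, h3⟩
    obtain ⟨h6, h7⟩ := k4 (fun η => {i | η < ξ ∧ i ∈ (f η).1}) i (μ B i) h5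
    have h8 := h7.antisymm (k4 B i _ h6.2).2
    refine ((hf ξ).1.2 (Or.inr (mem_iUnion.2 ⟨_, h5⟩))).trans (if_congr Iff.rfl rfl ?_)
    rw [if_pos ⟨_, h5⟩, if_pos ⟨_, h2⟩, h8]
    simp only [h5.1, true_and]
    rfl
  · exact piecewise_eq_of_notMem _ _ _ h2

end Pool.Agent.Results.MP_4cb3df_gt.Main
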